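import Pool.Agent.helper7.EP.SpecA

/-!
# Project ep (MP_ebc808_nt), module CNT: the main inequality of part A
-/

set_option autoImplicit false

open Finset PowerSeries

noncomputable section

namespace Pool.Agent.EP

theorem CNT_tcl (a : ℕ) : tcl a % 24 = tcl a := by
  unfold tcl
  exact Nat.mod_mod _ _

open Classical in
/-- the exceptional primes -/
def CNT_ex (a y k : ℕ) : Finset ℕ := ExA a y ∪ ExB a y k ∪ ExP a y k

theorem CNT_ex_card (hEXA : EXA_stmt) (hEXB : EXB_stmt) (hEXP : EXP_stmt) (a y k : ℕ)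
    (hk : k ≤ 12 * 2 ^ a) (hy : 5 * 2 ^ a ≤ y) : #(CNT_ex a y k) ≤
      (2 * y / 2 ^ a) * (Nat.sqrt (2 * y) + 1) + (2 * 2 ^ a + Nat.sqrt y + 1) + 2 ^ a := by
  classical
  unfold CNT_ex
  refine (card_union_le _ _).trans (add_le_add ((card_union_le _ _).trans (add_le_add ?_ ?_)) ?_)
  · exact hEXA a y
  · exact hEXB a y k hk
  · exact hEXP a y k hk (by
      have := Nat.pow_pos (n := a) (show 0 < 2 by norm_num)
      omega)

theorem CNT_good (hEVX : EVX_stmt) (a y k p : ℕ) (ha : 2 ≤ a) (hy : 5 * 2 ^ a ≤ y) (hk : k ∈ Ks a)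
    (hp : p ∈ Pt a y) (hex : p ∉ CNT_ex a y k) :
    ∃ s ∈ {n ∈ range (4 ^ a * y + 1) | Even (Fintype.card (Nat.Partition n))},
      (k, p) ∈ FiS a y s := by
  classical
  have hk' := hk
  have hp' := hp
  unfold Ks at hk'
  unfold Pt at hp'
  rw [mem_filter, mem_range] at hk'
  rw [mem_filter, mem_Ioc] at hp'
  obtain ⟨hk1, hk2, hk3⟩ := hk'
  obtain ⟨⟨hp1, hp2⟩, hp3, hp4⟩ := hp'
  rw [CNT_tcl] at hp4
  unfold CNT_ex at hex
  rw [mem_union, mem_union, not_or, not_or] at hex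
  obtain ⟨⟨hA, hB⟩, hP⟩ := hex
  unfold ExA at hA
  unfold ExB at hB
  unfold ExP at hP
  rw [mem_filter, not_and] at hA hB hP
  have hA' := hA hp
  have hB' := hB hp
  have hP' := hP hp
  obtain ⟨w, hw, hdvd, hev⟩ := hEVX a k p ha hk2 hk3 hp3 hp4
    (fun u h1 h2 h3 => hA' ⟨u, h1, h2, h3⟩) (fun u h1 => hB' ⟨u, h1⟩) (fun w h1 h2 => hP' ⟨w, h1, h2⟩)
  obtain ⟨s, hs⟩ := hdvd
  have hs' : ((k * 2 ^ a - 3 * w ^ 2) * p + 1) / 24 = s := by
    rw [hs]; exact Nat.mul_div_cancel_left s (by norm_num)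
  rw [hs'] at hev
  refine ⟨s, ?_, ?_⟩
  · rw [mem_filter, mem_range]
    refine ⟨?_, hev⟩
    have hw' := hw
    unfold ws at hw'
    rw [mem_filter] at hw'
    obtain ⟨_, hw1, hw2⟩ := hw'
    have hw3 : 1 ≤ w := by
      rcases Nat.eq_zero_or_pos w with h | h
      · rw [h] at hw1; omega
      · exact h
    have hw4 : 1 ≤ w ^ 2 := Nat.one_le_pow _ _ hw3
    have hj : k * 2 ^ a - 3 * w ^ 2 + 3 ≤ 12 * 4 ^ a := by
      have h1 : k * 2 ^ a ≤ 12 * 2 ^ a * 2 ^ a := Nat.mul_le_mul_right _ (by omega)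
      have h2 : 12 * 2 ^ a * 2 ^ a = 12 * 4 ^ a := by
        rw [mul_assoc, ← mul_pow]; norm_num
      omega
    have hy1 : 1 ≤ y := by
      have := Nat.pow_pos (n := a) (show 0 < 2 by norm_num)
      omega
    have h3 : (k * 2 ^ a - 3 * w ^ 2 + 3) * p ≤ 12 * 4 ^ a * (2 * y) := Nat.mul_le_mul hj hp2
    have h4 : (k * 2 ^ a - 3 * w ^ 2 + 3) * p = (k * 2 ^ a - 3 * w ^ 2) * p + 3 * p := by ring
    have h5 : 12 * 4 ^ a * (2 * y) = 24 * (4 ^ a * y) := by ring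
    rw [h4, h5] at h3
    omega
  · unfold FiS
    rw [mem_filter, mem_product]
    exact ⟨⟨hk, hp⟩, w, hw, hs⟩

theorem CNT (hEVX : EVX_stmt) (hEXA : EXA_stmt) (hEXB : EXB_stmt) (hEXP : EXP_stmt)
    (hFIB : FIB_stmt) : CNT_stmt := by
  classical
  intro a y ha hy
  set E : Finset ℕ := {n ∈ range (4 ^ a * y + 1) | Even (Fintype.card (Nat.Partition n))} with hE
  have hsE : sE (4 ^ a * y) = #E := rfl
  have hsub : Ks a ×ˢ Pt a y ⊆ E.biUnion (FiS a y) ∪
      (Ks a).biUnion (fun k => (CNT_ex a y k).image (fun p => (k, p))) := by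
    rintro ⟨k, p⟩ hx
    rw [mem_product] at hx
    rw [mem_union, mem_biUnion, mem_biUnion]
    by_cases hex : p ∈ CNT_ex a y k
    · right
      exact ⟨k, hx.1, mem_image_of_mem _ hex⟩
    · left
      exact CNT_good hEVX a y k p ha hy hx.1 hx.2 hex
  have h1 : #(E.biUnion (FiS a y)) ≤ #E * 16 :=
    card_biUnion_le_card_mul _ _ _ fun s _ => hFIB a y s hy
  have h2 : #((Ks a).biUnion (fun k => (CNT_ex a y k).image (fun p => (k, p)))) ≤
      #(Ks a) * ((2 * y / 2 ^ a) * (Nat.sqrt (2 * y) + 1) + (2 * 2 ^ a + Nat.sqrt y + 1) + 2 ^ a) := by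
    apply card_biUnion_le_card_mul
    intro k hk
    refine card_image_le.trans (CNT_ex_card hEXA hEXB hEXP a y k ?_ hy)
    unfold Ks at hk
    rw [mem_filter, mem_range] at hk
    omega
  have h3 := card_le_card hsub
  rw [card_product] at h3
  have h4 := card_union_le (E.biUnion (FiS a y))
    ((Ks a).biUnion (fun k => (CNT_ex a y k).image (fun p => (k, p))))
  rw [hsE]
  omega

end Pool.Agent.EP
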